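import Mathlib

set_option autoImplicit false

open MeasureTheory

namespace Pool.Agent.Lib.MP_e34f63_pr

/-- The discrete sigma-algebra on words over the types. -/
instance instWord (K : ℕ) : MeasurableSpace (List (Fin K)) := ⊤

/-- The discrete sigma-algebra on types with an extra point. -/
instance instOpt (K : ℕ) : MeasurableSpace (Option (Fin K)) := ⊤

/-- An offspring family: for each type a probability measure on the words over the types. -/
abbrev Offspring (K : ℕ) : Type := Fin K → PMF (List (Fin K))

/-- An environment assigns to each address `u` and each type `k` the word of types of the children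
which the vertex with address `u` receives if its type is `k`. -/
abbrev Env (K : ℕ) : Type := List ℕ × Fin K → List (Fin K)

/-- A plane tree with types, given by the type of the vertex at each address (`none` if there is no
vertex there). The address of the root is `[]`; the address `j :: u` is the vertex which has address
`u` in the subtree above the child number `j` of the root (children are numbered from `0`). -/
abbrev TypedTree (K : ℕ) : Type := List ℕ → Option (Fin K)

/-- The plane tree with root type `i` grown from the environment `ω`. -/
def grow {K : ℕ} : Fin K → Env K → TypedTree K
  | i, _, [] => some i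
  | i, ω, j :: u =>
    match (ω ([], i))[j]? with
    | none => none
    | some k => grow k (fun p => ω (j :: p.1, p.2)) u

/-- The law of the BGW tree with offspring family `ζ` and root type `i`: the words of the
environment are independent, the one at `(u, k)` being sampled from `ζ k`. -/
noncomputable def bgw {K : ℕ} (ζ : Offspring K) (i : Fin K) : Measure (TypedTree K) :=
  (Measure.infinitePi (fun p : List ℕ × Fin K => (ζ p.2).toMeasure)).map (grow i)

/-- The number of vertices of type `k` of the tree `τ`, possibly infinite. -/
noncomputable def count {K : ℕ} (k : Fin K) (τ : TypedTree K) : ℕ∞ :=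
  {u : List ℕ | τ u = some k}.encard

/-- The product of the row vector `Γ` with the vector of the numbers of vertices of each type. -/
noncomputable def total {K : ℕ} (Γ : Fin K → ℕ) (τ : TypedTree K) : ℕ∞ :=
  ∑ k, (Γ k : ℕ∞) * count k τ

/-- The conditioning event. -/
def event {K : ℕ} (Γ : Fin K → ℕ) (g : ℕ) : Set (TypedTree K) := {τ | total Γ τ = g}

/-- The trees with finitely many vertices. -/
def FinTree (K : ℕ) : Set (TypedTree K) := {τ | {u : List ℕ | τ u ≠ none}.Finite}

/-- A vertex of type `j` has a child of type `k` with positive probability. -/
def Child {K : ℕ} (ζ : Offspring K) (j k : Fin K) : Prop := ∃ y, ζ j y ≠ 0 ∧ k ∈ y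

/-- Condition (i): the two families have the same supports. -/
def SameSupport {K : ℕ} (ζ ζ' : Offspring K) : Prop := ∀ i x, ζ i x = 0 ↔ ζ' i x = 0

/-- Condition (ii): for every root type and every value `g` for which the conditioning event has
positive probability under `ζ`, the two conditioned trees have the same law. -/
def CondEq {K : ℕ} (Γ : Fin K → ℕ) (ζ ζ' : Offspring K) : Prop :=
  ∀ (i : Fin K) (g : ℕ), bgw ζ i (event Γ g) ≠ 0 →
    ProbabilityTheory.cond (bgw ζ i) (event Γ g) = ProbabilityTheory.cond (bgw ζ' i) (event Γ g)

end Pool.Agent.Lib.MP_e34f63_pr
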