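import Mathlib
import Pool.Agent.Lib.MP_e34f63_pr.Defs

set_option autoImplicit false

open MeasureTheory

namespace Pool.Agent.Lib.MP_e34f63_pr

variable {K : ℕ}

/-- shifted environment -/
def shift (j : ℕ) (ω : Env K) : Env K := fun p => ω (j :: p.1, p.2)

@[simp] lemma grow_nil (i : Fin K) (ω : Env K) : grow i ω [] = some i := by
  unfold grow; rfl

lemma grow_cons (i : Fin K) (ω : Env K) (j : ℕ) (u : List ℕ) :
    grow i ω (j :: u) = ((ω ([], i))[j]?).bind (fun k => grow k (shift j ω) u) := by
  conv_lhs => unfold grow
  cases h : (ω ([], i))[j]? with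
  | none => rfl
  | some k => rfl

lemma grow_append (i : Fin K) (ω : Env K) (u : List ℕ) (r : ℕ) :
    grow i ω (u ++ [r]) = (grow i ω u).bind (fun k => (ω (u, k))[r]?) := by
  induction u generalizing i ω with
  | nil =>
    rw [List.nil_append, grow_cons, grow_nil]
    simp only [grow_nil, Option.bind_some]
    cases (ω ([], i))[r]? <;> rfl
  | cons j u ih =>
    rw [List.cons_append, grow_cons, grow_cons, Option.bind_assoc]
    congr 1
    funext k
    rw [ih]
    rfl

instance : DiscreteMeasurableSpace (List (Fin K)) := ⟨fun _ => trivial⟩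
instance : DiscreteMeasurableSpace (Option (Fin K)) := ⟨fun _ => trivial⟩

lemma measurable_grow_coord (u : List ℕ) : ∀ i : Fin K, Measurable (fun ω : Env K => grow i ω u) := by
  induction u with
  | nil => intro i; simp only [grow_nil]; exact measurable_const
  | cons j u ih =>
    intro i
    have h1 : (fun ω : Env K => grow i ω (j :: u)) =
        (fun q : Option (Fin K) × Env K => q.1.bind (fun k => grow k (shift j q.2) u)) ∘
          (fun ω => ((ω ([], i))[j]?, ω)) := by
      funext ω
      simp only [Function.comp, grow_cons]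
    rw [h1]
    have hs : Measurable (shift (K := K) j) := by
      apply measurable_pi_lambda
      intro p
      exact measurable_pi_apply _
    have hA : Measurable (fun q : Option (Fin K) × Env K =>
        q.1.bind (fun k => grow k (shift j q.2) u)) := by
      apply measurable_from_prod_countable_right
      intro o
      cases o with
      | none => exact measurable_const
      | some k => exact (ih k).comp hs
    have hB : Measurable (fun ω : Env K => ((ω ([], i))[j]?, ω)) := by
      refine Measurable.prodMk ?_ measurable_id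
      have h2 : Measurable (fun w : List (Fin K) => w[j]?) := Measurable.of_discrete
      exact h2.comp (measurable_pi_apply _)
    exact hA.comp hB

lemma measurable_grow (i : Fin K) : Measurable (grow (K := K) i) :=
  measurable_pi_lambda _ (fun u => measurable_grow_coord u i)

/-- environment measure -/
noncomputable def env (ζ : Offspring K) : Measure (Env K) :=
  Measure.infinitePi (fun p : List ℕ × Fin K => (ζ p.2).toMeasure)

instance (ζ : Offspring K) : IsProbabilityMeasure (env ζ) := by
  unfold env; infer_instance

lemma bgw_eq (ζ : Offspring K) (i : Fin K) : bgw ζ i = (env ζ).map (grow i) := rfl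

instance (ζ : Offspring K) (i : Fin K) : IsProbabilityMeasure (bgw ζ i) := by
  rw [bgw_eq]
  exact Measure.isProbabilityMeasure_map (measurable_grow i).aemeasurable

lemma bgw_apply (ζ : Offspring K) (i : Fin K) {A : Set (TypedTree K)} (hA : MeasurableSet A) :
    bgw ζ i A = env ζ (grow i ⁻¹' A) := by
  rw [bgw_eq, Measure.map_apply (measurable_grow i) hA]

lemma env_cyl (ζ : Offspring K) (D : Finset (List ℕ × Fin K)) (w : List ℕ × Fin K → List (Fin K)) :
    env ζ {ω | ∀ d ∈ D, ω d = w d} = ∏ d ∈ D, ζ d.2 (w d) := by
  have : {ω : Env K | ∀ d ∈ D, ω d = w d} = Set.pi (D : Set (List ℕ × Fin K)) (fun d => {w d}) := by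
    ext ω; simp [Set.mem_pi]
  rw [this, env, Measure.infinitePi_pi _ (fun _ _ => MeasurableSet.singleton _)]
  apply Finset.prod_congr rfl
  intro d _
  exact PMF.toMeasure_apply_singleton _ _ (MeasurableSet.singleton _)

/-- `t` is a finite tree with root type `i` realised with positive probability -/
def Real (ζ : Offspring K) (i : Fin K) (t : TypedTree K) : Prop :=
  ∃ (D : Finset (List ℕ × Fin K)) (w : List ℕ × Fin K → List (Fin K)),
    (∀ d ∈ D, ζ d.2 (w d) ≠ 0) ∧ ∀ ω : Env K, (∀ d ∈ D, ω d = w d) → grow i ω = t

lemma real_mono {ζ ζ' : Offspring K} (h : ∀ i x, ζ i x ≠ 0 → ζ' i x ≠ 0) {i : Fin K}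
    {t : TypedTree K} (ht : Real ζ i t) : Real ζ' i t := by
  obtain ⟨D, w, h1, h2⟩ := ht
  exact ⟨D, w, fun d hd => h _ _ (h1 d hd), h2⟩

lemma real_pos {ζ : Offspring K} {i : Fin K} {t : TypedTree K} (ht : Real ζ i t) :
    bgw ζ i {t} ≠ 0 := by
  obtain ⟨D, w, h1, h2⟩ := ht
  rw [bgw_apply _ _ (MeasurableSet.singleton _)]
  intro h0
  have h3 : {ω : Env K | ∀ d ∈ D, ω d = w d} ⊆ grow i ⁻¹' {t} := fun ω hω => h2 ω hω
  have h4 := measure_mono_null h3 h0
  rw [env_cyl, Finset.prod_eq_zero_iff] at h4
  obtain ⟨d, hd, hd'⟩ := h4
  exact h1 d hd hd'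

/-- grafting -/
def graft (i : Fin K) (y : List (Fin K)) (t : ℕ → TypedTree K) : TypedTree K
  | [] => some i
  | j :: u => if j < y.length then t j u else none

lemma graft_nil (i : Fin K) (y : List (Fin K)) (t : ℕ → TypedTree K) :
    graft i y t [] = some i := rfl

lemma graft_cons (i : Fin K) (y : List (Fin K)) (t : ℕ → TypedTree K) (j : ℕ) (u : List ℕ) :
    graft i y t (j :: u) = if j < y.length then t j u else none := rfl

/-- subtree with a possibly missing root -/
def subt (o : Option (Fin K)) (ω : Env K) : TypedTree K :=
  match o with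
  | none => fun _ => none
  | some k => grow k ω

@[simp] lemma subt_some (k : Fin K) (ω : Env K) : subt (some k) ω = grow k ω := rfl

lemma grow_eq_graft (i : Fin K) (ω : Env K) :
    grow i ω = graft i (ω ([], i)) (fun j => subt (ω ([], i))[j]? (shift j ω)) := by
  funext u
  cases u with
  | nil => simp [graft]
  | cons j u =>
    rw [grow_cons, graft_cons]
    by_cases h : j < (ω ([], i)).length
    · rw [if_pos h, List.getElem?_eq_getElem h]
      rfl
    · rw [if_neg h, List.getElem?_eq_none (not_lt.mp h)]
      rfl

lemma real_graft {ζ : Offspring K} {i : Fin K} {y : List (Fin K)} {t : ℕ → TypedTree K}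
    (hy : ζ i y ≠ 0) (ht : ∀ (j : ℕ) (h : j < y.length), Real ζ y[j] (t j)) :
    Real ζ i (graft i y t) := by
  classical
  choose! D w h1 h2 using ht
  refine ⟨insert ([], i) ((Finset.range y.length).biUnion
    (fun j => (D j).image (fun d => (j :: d.1, d.2)))),
    fun d => match d.1 with
      | [] => y
      | j :: u => w j (u, d.2), ?_, ?_⟩
  · intro d hd
    rw [Finset.mem_insert, Finset.mem_biUnion] at hd
    rcases hd with rfl | ⟨j, hj, hd⟩
    · exact hy
    · obtain ⟨d', hd', rfl⟩ := Finset.mem_image.mp hd
      exact h1 j (Finset.mem_range.mp hj) d' hd'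
  · intro ω hω
    have h0 : ω ([], i) = y := hω ([], i) (Finset.mem_insert_self _ _)
    funext u
    cases u with
    | nil => simp [graft]
    | cons j u =>
      rw [grow_cons, h0, graft_cons]
      by_cases h : j < y.length
      · rw [if_pos h, List.getElem?_eq_getElem h]
        have := h2 j h (shift j ω) (fun d hd => by
          have := hω (j :: d.1, d.2) (Finset.mem_insert_of_mem (Finset.mem_biUnion.mpr
            ⟨j, Finset.mem_range.mpr h, Finset.mem_image.mpr ⟨d, hd, rfl⟩⟩))
          exact this)
        simp only [Option.bind_some]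
        rw [this]
      · rw [if_neg h, List.getElem?_eq_none (not_lt.mp h)]
        rfl

lemma count_graft (i k : Fin K) (y : List (Fin K)) (t : ℕ → TypedTree K) :
    count k (graft i y t) = (if k = i then 1 else 0) + ∑ j ∈ Finset.range y.length, count k (t j) := by
  have hset : ∀ n : ℕ, {u : List ℕ | ∃ j u', u = j :: u' ∧ j < n ∧ t j u' = some k}.encard =
      ∑ j ∈ Finset.range n, count k (t j) := by
    intro n
    induction n with
    | zero => simp
    | succ n ih =>
      rw [Finset.sum_range_succ, ← ih]
      have e : {u : List ℕ | ∃ j u', u = j :: u' ∧ j < n + 1 ∧ t j u' = some k} =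
          {u : List ℕ | ∃ j u', u = j :: u' ∧ j < n ∧ t j u' = some k} ∪
          (List.cons n) '' {u : List ℕ | t n u = some k} := by
        ext u
        simp only [Set.mem_ofPred_eq, Set.mem_union, Set.mem_image]
        constructor
        · rintro ⟨j, u', rfl, hj, h⟩
          rcases Nat.lt_succ_iff_lt_or_eq.mp hj with hj | rfl
          · exact Or.inl ⟨j, u', rfl, hj, h⟩
          · exact Or.inr ⟨u', h, rfl⟩
        · rintro (⟨j, u', rfl, hj, h⟩ | ⟨u', h, rfl⟩)
          · exact ⟨j, u', rfl, by omega, h⟩
          · exact ⟨n, u', rfl, by omega, h⟩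
      rw [e, Set.encard_union_eq, Function.Injective.encard_image]
      · rfl
      · exact List.cons_injective
      · rw [Set.disjoint_left]
        rintro u ⟨j, u', rfl, hj, h⟩ ⟨u'', h', h''⟩
        simp only [List.cons.injEq] at h''
        omega
  rw [← hset y.length]
  unfold count
  by_cases hk : k = i
  · have e : {u : List ℕ | graft i y t u = some k} = {[]} ∪
        {u : List ℕ | ∃ j u', u = j :: u' ∧ j < y.length ∧ t j u' = some k} := by
      ext u
      cases u with
      | nil => simp [graft, hk]
      | cons j u =>
        simp only [Set.mem_ofPred_eq, Set.mem_union, Set.mem_singleton_iff, graft]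
        constructor
        · intro h
          right
          by_cases hj : j < y.length
          · rw [if_pos hj] at h; exact ⟨j, u, rfl, hj, h⟩
          · rw [if_neg hj] at h; exact absurd h (by simp)
        · rintro (h | ⟨j', u', h, hj, h'⟩)
          · exact absurd h (by simp)
          · simp only [List.cons.injEq] at h
            obtain ⟨rfl, rfl⟩ := h
            rw [if_pos hj]; exact h'
    rw [e, Set.encard_union_eq, if_pos hk, Set.encard_singleton]
    rw [Set.disjoint_left]
    rintro u hu ⟨j, u', rfl, _⟩
    simp at hu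
  · have e : {u : List ℕ | graft i y t u = some k} =
        {u : List ℕ | ∃ j u', u = j :: u' ∧ j < y.length ∧ t j u' = some k} := by
      ext u
      cases u with
      | nil => simp [graft, Ne.symm hk]
      | cons j u =>
        simp only [Set.mem_ofPred_eq, graft]
        constructor
        · intro h
          by_cases hj : j < y.length
          · rw [if_pos hj] at h; exact ⟨j, u, rfl, hj, h⟩
          · rw [if_neg hj] at h; exact absurd h (by simp)
        · rintro ⟨j', u', h, hj, h'⟩
          simp only [List.cons.injEq] at h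
          obtain ⟨rfl, rfl⟩ := h
          rw [if_pos hj]; exact h'
    rw [e, if_neg hk, zero_add]

lemma total_graft (Γ : Fin K → ℕ) (i : Fin K) (y : List (Fin K)) (t : ℕ → TypedTree K) :
    total Γ (graft i y t) = Γ i + ∑ j ∈ Finset.range y.length, total Γ (t j) := by
  unfold total
  simp_rw [count_graft, mul_add]
  rw [Finset.sum_add_distrib]
  congr 1
  · simp
  · rw [Finset.sum_comm]
    apply Finset.sum_congr rfl
    intro k _
    rw [Finset.mul_sum]

lemma measurableSet_le_count (k : Fin K) (n : ℕ) :
    MeasurableSet {τ : TypedTree K | (n : ℕ∞) ≤ count k τ} := by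
  have : {τ : TypedTree K | (n : ℕ∞) ≤ count k τ} =
      ⋃ F : Finset (List ℕ), {τ : TypedTree K | F.card = n ∧ ∀ u ∈ F, τ u = some k} := by
    ext τ
    simp only [Set.mem_ofPred_eq, Set.mem_iUnion]
    constructor
    · intro h
      obtain ⟨s, hs, hs'⟩ := Set.exists_subset_encard_eq h
      have hfin : s.Finite := Set.finite_of_encard_eq_coe hs'
      refine ⟨hfin.toFinset, ?_, ?_⟩
      · have := hfin.encard_eq_coe_toFinset_card
        rw [hs'] at this
        exact_mod_cast this.symm
      · intro u hu
        exact hs (hfin.mem_toFinset.mp hu)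
    · rintro ⟨F, hF, h⟩
      unfold count
      rw [← hF, ← Set.encard_coe_eq_coe_finsetCard]
      exact Set.encard_le_encard (fun u hu => h u (by simpa using hu))
  rw [this]
  apply MeasurableSet.iUnion
  intro F
  by_cases hF : F.card = n
  · have : {τ : TypedTree K | F.card = n ∧ ∀ u ∈ F, τ u = some k} =
        ⋂ u ∈ F, {τ : TypedTree K | τ u = some k} := by
      ext τ; simp [hF]
    rw [this]
    apply Finset.measurableSet_biInter
    intro u _
    have h1 : Measurable (fun τ : TypedTree K => τ u) := measurable_pi_apply u
    exact h1 (MeasurableSet.singleton (some k))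
  · have : {τ : TypedTree K | F.card = n ∧ ∀ u ∈ F, τ u = some k} = ∅ := by
      ext τ; simp [hF]
    rw [this]; exact MeasurableSet.empty

lemma measurableSet_count (k : Fin K) (n : ℕ∞) :
    MeasurableSet {τ : TypedTree K | count k τ = n} := by
  cases n with
  | top =>
    have : {τ : TypedTree K | count k τ = ⊤} = ⋂ n : ℕ, {τ | (n : ℕ∞) ≤ count k τ} := by
      ext τ
      simp only [Set.mem_ofPred_eq, Set.mem_iInter]
      constructor
      · intro h n; rw [h]; exact le_top
      · intro h
        rw [ENat.eq_top_iff_forall_ge]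
        exact h
    rw [this]
    exact MeasurableSet.iInter (fun n => measurableSet_le_count k n)
  | coe n =>
    have : {τ : TypedTree K | count k τ = (n : ℕ∞)} =
        {τ | (n : ℕ∞) ≤ count k τ} \ {τ | ((n + 1 : ℕ) : ℕ∞) ≤ count k τ} := by
      ext τ
      simp only [Set.mem_ofPred_eq, Set.mem_sdiff, not_le]
      constructor
      · intro h
        rw [h]
        exact ⟨le_rfl, by exact_mod_cast Nat.lt_succ_self n⟩
      · rintro ⟨h1, h2⟩
        apply le_antisymm _ h1
        have : ((n + 1 : ℕ) : ℕ∞) = (n : ℕ∞) + 1 := by push_cast; rfl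
        rw [this] at h2
        exact Order.le_of_lt_add_one h2
    rw [this]
    exact (measurableSet_le_count k n).diff (measurableSet_le_count k (n + 1))

lemma measurableSet_event (Γ : Fin K → ℕ) (g : ℕ) : MeasurableSet (event (K := K) Γ g) := by
  have : event (K := K) Γ g = ⋃ n : {n : Fin K → ℕ∞ // ∑ k, (Γ k : ℕ∞) * n k = g},
      ⋂ k, {τ : TypedTree K | count k τ = n.1 k} := by
    ext τ
    simp only [event, total, Set.mem_ofPred_eq, Set.mem_iUnion, Set.mem_iInter]
    constructor
    · intro h
      exact ⟨⟨fun k => count k τ, h⟩, fun k => rfl⟩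
    · rintro ⟨⟨n, hn⟩, h⟩
      rw [← hn]
      simp only at h
      simp_rw [h]
  rw [this]
  apply MeasurableSet.iUnion
  intro n
  exact MeasurableSet.iInter (fun k => measurableSet_count k _)

end Pool.Agent.Lib.MP_e34f63_pr
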