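import Mathlib
import Pool.Agent.Lib.MP_e34f63_pr.Basic

set_option autoImplicit false

open MeasureTheory

namespace Pool.Agent.Lib.MP_e34f63_pr

variable {K : ℕ}

/-- the tree `t` has a vertex of type `i` with word `x` -/
def Uses (t : TypedTree K) (i : Fin K) (x : List (Fin K)) : Prop :=
  ∃ u : List ℕ, t u = some i ∧ ∀ r : ℕ, t (u ++ [r]) = x[r]?

lemma uses_zero {ζ : Offspring K} {i j : Fin K} {x : List (Fin K)} {t : TypedTree K}
    (hx : ζ i x = 0) (h : Uses t i x) : bgw ζ j {t} = 0 := by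
  obtain ⟨u, hu, hr⟩ := h
  rw [bgw_apply _ _ (MeasurableSet.singleton _)]
  have h1 : grow j ⁻¹' {t} ⊆ {ω : Env K | ∀ d ∈ ({(u, i)} : Finset (List ℕ × Fin K)),
      ω d = x} := by
    intro ω hω d hd
    rw [Finset.mem_singleton] at hd
    subst hd
    have hω' : grow j ω = t := hω
    apply List.ext_getElem?
    intro r
    rw [← hr r, ← hω', grow_append, hω', hu]
    rfl
  refine measure_mono_null h1 ?_
  rw [env_cyl]
  simp [hx]

lemma uses_graft_root {i : Fin K} {y : List (Fin K)} {t : ℕ → TypedTree K}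
    (ht : ∀ (j : ℕ) (h : j < y.length), t j [] = some y[j]) : Uses (graft i y t) i y := by
  refine ⟨[], rfl, fun r => ?_⟩
  rw [List.nil_append, graft_cons]
  by_cases h : r < y.length
  · rw [if_pos h, ht r h, List.getElem?_eq_getElem h]
  · rw [if_neg h, List.getElem?_eq_none (not_lt.mp h)]

lemma uses_graft_child {i i' : Fin K} {y x : List (Fin K)} {t : ℕ → TypedTree K} {j : ℕ}
    (hj : j < y.length) (h : Uses (t j) i' x) : Uses (graft i y t) i' x := by
  obtain ⟨u, hu, hr⟩ := h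
  refine ⟨j :: u, ?_, fun r => ?_⟩
  · rw [graft_cons, if_pos hj, hu]
  · rw [List.cons_append, graft_cons, if_pos hj, hr]

lemma real_root {ζ : Offspring K} {i : Fin K} {t : TypedTree K} (h : Real ζ i t) :
    t [] = some i := by
  classical
  obtain ⟨D, w, _, h2⟩ := h
  rw [← h2 w (fun _ _ => rfl)]
  simp

/-- values of finite trees -/
def Val (ζ : Offspring K) (Γ : Fin K → ℕ) (j : Fin K) (v : ℕ) : Prop :=
  ∃ t, Real ζ j t ∧ total Γ t = v

/-- values of finite trees using the word `x` at type `i` -/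
def ValU (ζ : Offspring K) (Γ : Fin K → ℕ) (i : Fin K) (x : List (Fin K)) (j : Fin K) (v : ℕ) :
    Prop := ∃ t, Real ζ j t ∧ total Γ t = v ∧ Uses t i x

lemma val_pos {ζ : Offspring K} {Γ : Fin K → ℕ} {j : Fin K} {v : ℕ} (h : Val ζ Γ j v) :
    bgw ζ j (event Γ v) ≠ 0 := by
  obtain ⟨t, ht, hv⟩ := h
  intro h0
  apply real_pos ht
  exact measure_mono_null (Set.singleton_subset_iff.mpr hv) h0

lemma total_graft_val {Γ : Fin K → ℕ} {i : Fin K} {y : List (Fin K)} {t : ℕ → TypedTree K}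
    {v : ℕ → ℕ} (h : ∀ j < y.length, total Γ (t j) = v j) :
    total Γ (graft i y t) = ((Γ i + ∑ j ∈ Finset.range y.length, v j : ℕ) : ℕ∞) := by
  rw [total_graft, Finset.sum_congr rfl (fun j hj => h j (Finset.mem_range.mp hj))]
  push_cast
  rfl

lemma val_graft {ζ : Offspring K} {Γ : Fin K → ℕ} {i : Fin K} {y : List (Fin K)} {v : ℕ → ℕ}
    (hy : ζ i y ≠ 0) (hv : ∀ (j : ℕ) (h : j < y.length), Val ζ Γ y[j] (v j)) :
    Val ζ Γ i (Γ i + ∑ j ∈ Finset.range y.length, v j) := by
  choose! t h1 h2 using hv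
  exact ⟨graft i y t, real_graft hy h1, total_graft_val h2⟩

lemma valU_graft {ζ ζ' : Offspring K} {Γ : Fin K → ℕ} {i₀ : Fin K} {x : List (Fin K)}
    (hsub : ∀ i x, ζ i x ≠ 0 → ζ' i x ≠ 0)
    {i : Fin K} {y : List (Fin K)} {v : ℕ → ℕ} (r : ℕ) (hr : r < y.length)
    (hy : ζ' i y ≠ 0) (hv : ∀ (j : ℕ) (h : j < y.length), j ≠ r → Val ζ Γ y[j] (v j))
    (hvr : ValU ζ' Γ i₀ x y[r] (v r)) :
    ValU ζ' Γ i₀ x i (Γ i + ∑ j ∈ Finset.range y.length, v j) := by
  classical
  obtain ⟨tr, hr1, hr2, hr3⟩ := hvr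
  have hv' : ∀ (j : ℕ) (h : j < y.length), ∃ t, Real ζ' y[j] t ∧ total Γ t = v j ∧
      (j = r → t = tr) := by
    intro j h
    by_cases hjr : j = r
    · subst hjr
      exact ⟨tr, hr1, hr2, fun _ => rfl⟩
    · obtain ⟨t, h1, h2⟩ := hv j h hjr
      exact ⟨t, real_mono hsub h1, h2, fun h => absurd h hjr⟩
  choose! t h1 h2 h3 using hv'
  refine ⟨graft i y t, real_graft hy h1, total_graft_val h2, ?_⟩
  refine uses_graft_child hr ?_
  rw [h3 r hr rfl]
  exact hr3

/-- a use at the root -/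
lemma valU_root {ζ' : Offspring K} {Γ : Fin K → ℕ}
    {i : Fin K} {x : List (Fin K)} {v : ℕ → ℕ}
    (hx : ζ' i x ≠ 0) (hv : ∀ (j : ℕ) (h : j < x.length), Val ζ' Γ x[j] (v j)) :
    ValU ζ' Γ i x i (Γ i + ∑ j ∈ Finset.range x.length, v j) := by
  choose! t h1 h2 using hv
  exact ⟨graft i x t, real_graft hx h1, total_graft_val h2,
    uses_graft_root (fun j h => real_root (h1 j h))⟩

lemma val_mono {ζ ζ' : Offspring K} {Γ : Fin K → ℕ}
    (hsub : ∀ i x, ζ i x ≠ 0 → ζ' i x ≠ 0) {j : Fin K} {v : ℕ} (h : Val ζ Γ j v) :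
    Val ζ' Γ j v := by
  obtain ⟨t, h1, h2⟩ := h
  exact ⟨t, real_mono hsub h1, h2⟩

lemma valU_val {ζ : Offspring K} {Γ : Fin K → ℕ} {i : Fin K} {x : List (Fin K)} {j : Fin K} {v : ℕ}
    (h : ValU ζ Γ i x j v) : Val ζ Γ j v := by
  obtain ⟨t, h1, h2, _⟩ := h
  exact ⟨t, h1, h2⟩

/-- Common values contradict condition (ii). -/
lemma contra {ζ ζ' : Offspring K} {Γ : Fin K → ℕ} (hc : CondEq Γ ζ ζ') {i j : Fin K}
    {x : List (Fin K)} {v : ℕ} (hx : ζ i x = 0) (h1 : Val ζ Γ j v) (h2 : ValU ζ' Γ i x j v) :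
    False := by
  have hp := val_pos h1
  have heq := hc j v hp
  obtain ⟨t, ht, hv, hu⟩ := h2
  have hm : MeasurableSet ({t} : Set (TypedTree K)) := MeasurableSet.singleton t
  have e1 : ProbabilityTheory.cond (bgw ζ j) (event Γ v) {t} = 0 := by
    rw [ProbabilityTheory.cond_apply' hm]
    have : bgw ζ j (event Γ v ∩ {t}) = 0 :=
      measure_mono_null Set.inter_subset_right (uses_zero hx hu)
    rw [this, mul_zero]
  rw [heq, ProbabilityTheory.cond_apply' hm] at e1
  have e2 : event Γ v ∩ {t} = {t} := by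
    apply Set.inter_eq_right.mpr
    exact Set.singleton_subset_iff.mpr hv
  rw [e2, mul_eq_zero] at e1
  rcases e1 with e1 | e1
  · rw [ENNReal.inv_eq_zero] at e1
    exact measure_ne_top _ _ e1
  · exact real_pos ht e1

/-- Supports of the first family are contained in supports of the second one. -/
lemma supp_sub {ζ ζ' : Offspring K} {Γ : Fin K → ℕ} (hc : CondEq Γ ζ ζ')
    (hfin : ∀ j, ∃ v, Val ζ Γ j v) : ∀ i y, ζ i y ≠ 0 → ζ' i y ≠ 0 := by
  intro i y hy h0
  choose v hv using hfin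
  have hv' : ∀ (j : ℕ) (h : j < y.length), ∃ t, Real ζ y[j] t ∧ ∃ a : ℕ, total Γ t = a := by
    intro j h
    obtain ⟨t, ht, ht'⟩ := hv y[j]
    exact ⟨t, ht, _, ht'⟩
  choose! t h1 a h2 using hv'
  have hreal := real_graft hy h1
  have htot := total_graft_val (Γ := Γ) (i := i) h2
  have huse : Uses (graft i y t) i y := uses_graft_root (fun j h => real_root (h1 j h))
  have hval : Val ζ Γ i (Γ i + ∑ j ∈ Finset.range y.length, a j) := ⟨_, hreal, htot⟩
  have heq := hc i _ (val_pos hval)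
  have hm : MeasurableSet ({graft i y t} : Set (TypedTree K)) := MeasurableSet.singleton _
  have e1 := congrArg (fun μ : Measure (TypedTree K) => μ {graft i y t}) heq
  simp only [ProbabilityTheory.cond_apply' hm] at e1
  have e3 : bgw ζ' i (event Γ (Γ i + ∑ j ∈ Finset.range y.length, a j) ∩ {graft i y t}) = 0 :=
    measure_mono_null Set.inter_subset_right (uses_zero h0 huse)
  have e2 : event Γ (Γ i + ∑ j ∈ Finset.range y.length, a j) ∩ {graft i y t} = {graft i y t} := by
    apply Set.inter_eq_right.mpr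
    exact Set.singleton_subset_iff.mpr htot
  rw [e3, mul_zero, e2, mul_eq_zero] at e1
  rcases e1 with e1 | e1
  · rw [ENNReal.inv_eq_zero] at e1
    exact measure_ne_top _ _ e1
  · exact real_pos hreal e1

section main

variable {ζ ζ' : Offspring K} {Γ : Fin K → ℕ} {i₀ : Fin K} {x : List (Fin K)}

/-- `c` can be added when passing from root type `k` to root type `j` -/
def Mv (ζ ζ' : Offspring K) (Γ : Fin K → ℕ) (i₀ : Fin K) (x : List (Fin K)) (j k : Fin K) (c : ℕ) :
    Prop :=
  (∀ v, Val ζ Γ k v → Val ζ Γ j (v + c)) ∧ (∀ v, ValU ζ' Γ i₀ x k v → ValU ζ' Γ i₀ x j (v + c))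

lemma mv_trans {j k l : Fin K} {c c' : ℕ} (h : Mv ζ ζ' Γ i₀ x j k c) (h' : Mv ζ ζ' Γ i₀ x k l c') :
    Mv ζ ζ' Γ i₀ x j l (c' + c) := by
  refine ⟨fun v hv => ?_, fun v hv => ?_⟩
  · rw [← add_assoc]; exact h.1 _ (h'.1 _ hv)
  · rw [← add_assoc]; exact h.2 _ (h'.2 _ hv)

lemma mv_step (hsub : ∀ i x, ζ i x ≠ 0 → ζ' i x ≠ 0) (hfin : ∀ j, ∃ v, Val ζ Γ j v)
    {j k : Fin K} {y : List (Fin K)} (hy : ζ j y ≠ 0) (hk : k ∈ y) :
    ∃ c, Γ j ≤ c ∧ Mv ζ ζ' Γ i₀ x j k c := by
  classical
  obtain ⟨r, hr, hrk⟩ := List.mem_iff_getElem.mp hk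
  choose f hf using hfin
  let a : ℕ → ℕ := fun l => match y[l]? with
    | none => 0
    | some k => f k
  have ha : ∀ (l : ℕ) (h : l < y.length), Val ζ Γ y[l] (a l) := by
    intro l h
    have : a l = f y[l] := by
      simp only [a, List.getElem?_eq_getElem h]
    rw [this]; exact hf _
  refine ⟨Γ j + ∑ l ∈ (Finset.range y.length).erase r, a l, Nat.le_add_right _ _, ?_, ?_⟩
  · intro v hv
    have h1 : ∀ (l : ℕ) (h : l < y.length), Val ζ Γ y[l] (Function.update a r v l) := by
      intro l h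
      by_cases hl : l = r
      · subst hl
        rw [Function.update_self, hrk]; exact hv
      · rw [Function.update_of_ne hl]; exact ha l h
    have h2 := val_graft hy h1
    have h3 : Γ j + ∑ l ∈ Finset.range y.length, Function.update a r v l =
        v + (Γ j + ∑ l ∈ (Finset.range y.length).erase r, a l) := by
      rw [← Finset.add_sum_erase _ _ (Finset.mem_range.mpr hr), Function.update_self]
      rw [Finset.sum_congr rfl (g := a) (fun l hl => by
        rw [Function.update_of_ne (Finset.ne_of_mem_erase hl)])]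
      ring
    rw [h3] at h2
    exact h2
  · intro v hv
    have h1 : ∀ (l : ℕ) (h : l < y.length), l ≠ r → Val ζ Γ y[l] (Function.update a r v l) := by
      intro l h hl
      rw [Function.update_of_ne hl]; exact ha l h
    have h2 := valU_graft hsub r hr (hsub _ _ hy) h1
      (by rw [Function.update_self, hrk]; exact hv)
    have h3 : Γ j + ∑ l ∈ Finset.range y.length, Function.update a r v l =
        v + (Γ j + ∑ l ∈ (Finset.range y.length).erase r, a l) := by
      rw [← Finset.add_sum_erase _ _ (Finset.mem_range.mpr hr), Function.update_self]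
      rw [Finset.sum_congr rfl (g := a) (fun l hl => by
        rw [Function.update_of_ne (Finset.ne_of_mem_erase hl)])]
      ring
    rw [h3] at h2
    exact h2

lemma mv_chain (hsub : ∀ i x, ζ i x ≠ 0 → ζ' i x ≠ 0) (hfin : ∀ j, ∃ v, Val ζ Γ j v)
    {j k : Fin K} (h : Relation.TransGen (Child ζ) j k) : ∃ c, Γ j ≤ c ∧ Mv ζ ζ' Γ i₀ x j k c := by
  induction h using Relation.TransGen.head_induction_on with
  | single h =>
    obtain ⟨y, hy, hk⟩ := h
    exact mv_step hsub hfin hy hk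
  | head h _ ih =>
    obtain ⟨y, hy, hk⟩ := h
    obtain ⟨c, hc, h1⟩ := mv_step (i₀ := i₀) (x := x) hsub hfin hy hk
    obtain ⟨c', _, h2⟩ := ih
    exact ⟨c' + c, by omega, mv_trans h1 h2⟩

lemma mv_iter {j : Fin K} {c : ℕ} (h : Mv ζ ζ' Γ i₀ x j j c) (n : ℕ) :
    Mv ζ ζ' Γ i₀ x j j (n * c) := by
  induction n with
  | zero => exact ⟨fun v hv => by simpa using hv, fun v hv => by simpa using hv⟩
  | succ n ih =>
    have := mv_trans h ih
    have e : n * c + c = (n + 1) * c := by ring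
    rw [e] at this
    exact this

/-- case of a nonempty new word -/
lemma case_cons (hsub : ∀ i x, ζ i x ≠ 0 → ζ' i x ≠ 0) (hfin : ∀ j, ∃ v, Val ζ Γ j v)
    (hirr : ∀ j k, Relation.TransGen (Child ζ) j k) (hx' : ζ' i₀ x ≠ 0) (hlen : 0 < x.length)
    {d : ℕ} (hd : 0 < d) (hM : Mv ζ ζ' Γ i₀ x i₀ i₀ d) : ∃ v, Val ζ Γ i₀ v ∧ ValU ζ' Γ i₀ x i₀ v := by
  classical
  choose f hf using hfin
  let a : ℕ → ℕ := fun l => match x[l]? with
    | none => 0
    | some k => f k
  have ha : ∀ (l : ℕ) (h : l < x.length), Val ζ Γ x[l] (a l) := by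
    intro l h
    have : a l = f x[l] := by
      simp only [a, List.getElem?_eq_getElem h]
    rw [this]; exact hf _
  obtain ⟨c', _, hM'⟩ := mv_chain (i₀ := i₀) (x := x) hsub (fun j => ⟨f j, hf j⟩) (hirr x[0] i₀)
  set e : ℕ := c' + (Γ i₀ + ∑ l ∈ (Finset.range x.length).erase 0, a l) with he
  have hsum : ∀ v, Γ i₀ + ∑ l ∈ Finset.range x.length, Function.update a 0 (v + c') l =
        v + e := by
    intro v
    rw [← Finset.add_sum_erase _ _ (Finset.mem_range.mpr hlen), Function.update_self]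
    rw [Finset.sum_congr rfl (g := a) (fun l hl => by
      rw [Function.update_of_ne (Finset.ne_of_mem_erase hl)])]
    rw [he]
    ring
  have hA : ∀ v, Val ζ Γ i₀ v → ValU ζ' Γ i₀ x i₀ (v + e) := by
    intro v hv
    have h1 : ∀ (l : ℕ) (h : l < x.length), Val ζ' Γ x[l] (Function.update a 0 (v + c') l) := by
      intro l h
      by_cases hl : l = 0
      · subst hl
        rw [Function.update_self]; exact val_mono hsub (hM'.1 v hv)
      · rw [Function.update_of_ne hl]; exact val_mono hsub (ha l h)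
    have h2 := valU_root hx' h1
    rw [hsum] at h2
    exact h2
  have hB : ∀ v, ValU ζ' Γ i₀ x i₀ v → ValU ζ' Γ i₀ x i₀ (v + e) := by
    intro v hv
    have h1 : ∀ (l : ℕ) (h : l < x.length), l ≠ 0 →
        Val ζ Γ x[l] (Function.update a 0 (v + c') l) := by
      intro l h hl
      rw [Function.update_of_ne hl]; exact ha l h
    have h2 := valU_graft (i := i₀) hsub 0 hlen hx' h1
      (by rw [Function.update_self]; exact hM'.2 v hv)
    rw [hsum] at h2
    exact h2
  have hC : ∀ n : ℕ, ValU ζ' Γ i₀ x i₀ (f i₀ + (n + 1) * e) := by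
    intro n
    induction n with
    | zero =>
      have := hA _ (hf i₀)
      simpa using this
    | succ n ih =>
      have := hB _ ih
      have e1 : f i₀ + (n + 1) * e + e = f i₀ + (n + 1 + 1) * e := by ring
      rw [e1] at this
      exact this
  obtain ⟨n, hn⟩ := Nat.exists_eq_succ_of_ne_zero hd.ne'
  refine ⟨f i₀ + e * d, (mv_iter hM e).1 _ (hf i₀), ?_⟩
  have := hC n
  have hn' : d = n + 1 := hn
  have e1 : (n + 1) * e = e * d := by rw [hn']; ring
  rw [e1] at this
  exact this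

/-- case of the empty new word -/
lemma case_nil (hsub : ∀ i x, ζ i x ≠ 0 → ζ' i x ≠ 0) (hfin : ∀ j, ∃ v, Val ζ Γ j v)
    (hirr : ∀ j k, Relation.TransGen (Child ζ) j k) (hx' : ζ' i₀ [] ≠ 0)
    {b : Fin K} {y : List (Fin K)} (hy : ζ b y ≠ 0) (hlen : 2 ≤ y.length)
    {d : ℕ} (hd : 0 < d) (hM : Mv ζ ζ' Γ i₀ [] i₀ i₀ d) :
    ∃ v, Val ζ Γ i₀ v ∧ ValU ζ' Γ i₀ [] i₀ v := by
  classical
  choose f hf using hfin
  -- two slots
  let a : ℕ → ℕ := fun l => match y[l]? with
    | none => 0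
    | some k => f k
  have ha : ∀ (l : ℕ) (h : l < y.length), Val ζ Γ y[l] (a l) := by
    intro l h
    have : a l = f y[l] := by
      simp only [a, List.getElem?_eq_getElem h]
    rw [this]; exact hf _
  obtain ⟨c0, _, h0⟩ := mv_chain (i₀ := i₀) (x := []) hsub (fun j => ⟨f j, hf j⟩) (hirr y[0] i₀)
  obtain ⟨c1, _, h1⟩ := mv_chain (i₀ := i₀) (x := []) hsub (fun j => ⟨f j, hf j⟩) (hirr y[1] i₀)
  obtain ⟨cb, _, hb⟩ := mv_chain (i₀ := i₀) (x := []) hsub (fun j => ⟨f j, hf j⟩) (hirr i₀ b)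
  set S : ℕ := ∑ l ∈ ((Finset.range y.length).erase 0).erase 1, a l with hS
  set c : ℕ := c0 + c1 + S + Γ b + cb with hc
  let g : ℕ → ℕ → ℕ → ℕ := fun w1 w2 => Function.update (Function.update a 0 (w1 + c0)) 1 (w2 + c1)
  have hg0 : ∀ w1 w2, g w1 w2 0 = w1 + c0 := by
    intro w1 w2
    simp only [g]
    rw [Function.update_of_ne (by decide), Function.update_self]
  have hg1 : ∀ w1 w2, g w1 w2 1 = w2 + c1 := by
    intro w1 w2
    simp only [g]
    rw [Function.update_self]
  have hgl : ∀ w1 w2 l, l ≠ 0 → l ≠ 1 → g w1 w2 l = a l := by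
    intro w1 w2 l hl0 hl1
    simp only [g]
    rw [Function.update_of_ne hl1, Function.update_of_ne hl0]
  have hsum : ∀ w1 w2, Γ b + ∑ l ∈ Finset.range y.length, g w1 w2 l + cb = w1 + w2 + c := by
    intro w1 w2
    have m0 : 0 ∈ Finset.range y.length := Finset.mem_range.mpr (by omega)
    have m1 : 1 ∈ (Finset.range y.length).erase 0 :=
      Finset.mem_erase.mpr ⟨by decide, Finset.mem_range.mpr (by omega)⟩
    rw [← Finset.add_sum_erase _ _ m0, ← Finset.add_sum_erase _ _ m1, hg0, hg1]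
    rw [Finset.sum_congr rfl (g := a) (fun l hl => by
      rw [hgl w1 w2 l (Finset.ne_of_mem_erase (Finset.mem_of_mem_erase hl))
        (Finset.ne_of_mem_erase hl)])]
    rw [hc, hS]
    ring
  have hVV : ∀ w1 w2, Val ζ Γ i₀ w1 → Val ζ Γ i₀ w2 → Val ζ Γ i₀ (w1 + w2 + c) := by
    intro w1 w2 hw1 hw2
    have h2 : ∀ (l : ℕ) (h : l < y.length), Val ζ Γ y[l] (g w1 w2 l) := by
      intro l h
      by_cases hl0 : l = 0
      · subst hl0; rw [hg0]; exact h0.1 _ hw1
      · by_cases hl1 : l = 1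
        · subst hl1; rw [hg1]; exact h1.1 _ hw2
        · rw [hgl _ _ _ hl0 hl1]; exact ha l h
    have h3 := hb.1 _ (val_graft hy h2)
    rw [hsum] at h3
    exact h3
  have hVU : ∀ w1 w2, Val ζ Γ i₀ w1 → ValU ζ' Γ i₀ [] i₀ w2 →
      ValU ζ' Γ i₀ [] i₀ (w1 + w2 + c) := by
    intro w1 w2 hw1 hw2
    have h2 : ∀ (l : ℕ) (h : l < y.length), l ≠ 1 → Val ζ Γ y[l] (g w1 w2 l) := by
      intro l h hl1
      by_cases hl0 : l = 0
      · subst hl0; rw [hg0]; exact h0.1 _ hw1
      · rw [hgl _ _ _ hl0 hl1]; exact ha l h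
    have h3 := hb.2 _ (valU_graft hsub 1 (by omega) (hsub _ _ hy) h2
      (by rw [hg1]; exact h1.2 _ hw2))
    rw [hsum] at h3
    exact h3
  have hUU : ∀ w1 w2, ValU ζ' Γ i₀ [] i₀ w1 → ValU ζ' Γ i₀ [] i₀ w2 →
      ValU ζ' Γ i₀ [] i₀ (w1 + w2 + c) := by
    intro w1 w2 hw1 hw2
    obtain ⟨t0, r0, v0, u0⟩ := h0.2 _ hw1
    obtain ⟨t1, r1, v1, u1⟩ := h1.2 _ hw2
    have h2 : ∀ (l : ℕ) (h : l < y.length), ∃ t, Real ζ' y[l] t ∧ total Γ t = g w1 w2 l ∧
        (l = 0 → Uses t i₀ []) := by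
      intro l h
      by_cases hl0 : l = 0
      · subst hl0
        exact ⟨t0, r0, by rw [hg0]; exact v0, fun _ => u0⟩
      · by_cases hl1 : l = 1
        · subst hl1
          exact ⟨t1, r1, by rw [hg1]; exact v1, fun h => absurd h hl0⟩
        · obtain ⟨t, ht, hv⟩ := ha l h
          exact ⟨t, real_mono hsub ht, by rw [hgl _ _ _ hl0 hl1]; exact hv,
            fun h => absurd h hl0⟩
    choose! t k1 k2 k3 using h2
    have h3 : ValU ζ' Γ i₀ [] b (Γ b + ∑ l ∈ Finset.range y.length, g w1 w2 l) :=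
      ⟨graft b y t, real_graft (hsub _ _ hy) k1, total_graft_val k2,
        uses_graft_child (by omega : 0 < y.length) (k3 0 (by omega) rfl)⟩
    have h4 := hb.2 _ h3
    rw [hsum] at h4
    exact h4
  -- values
  have hb0 : ValU ζ' Γ i₀ [] i₀ (Γ i₀) := by
    have := valU_root (Γ := Γ) (v := fun _ => 0) hx' (by intro j h; simp at h)
    simpa using this
  set α := f i₀ with hα
  set β := Γ i₀ with hβ
  have hαV : Val ζ Γ i₀ α := hf i₀
  have hX : ∀ n : ℕ, Val ζ Γ i₀ (α + n * (α + c)) := by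
    intro n
    induction n with
    | zero => simpa using hαV
    | succ n ih =>
      have := hVV _ _ ih hαV
      have e : α + n * (α + c) + α + c = α + (n + 1) * (α + c) := by ring
      rw [e] at this; exact this
  have hY : ∀ n : ℕ, ValU ζ' Γ i₀ [] i₀ (α + (n + 1) * (β + c)) := by
    intro n
    induction n with
    | zero =>
      have := hVU _ _ hαV hb0
      have e : α + β + c = α + (0 + 1) * (β + c) := by ring
      rw [e] at this; exact this
    | succ n ih =>
      have := hUU _ _ ih hb0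
      have e : α + (n + 1) * (β + c) + β + c = α + (n + 1 + 1) * (β + c) := by ring
      rw [e] at this; exact this
  obtain ⟨n, hn⟩ := Nat.exists_eq_succ_of_ne_zero hd.ne'
  have hn' : d = n + 1 := hn
  rcases le_total β α with hle | hle
  · obtain ⟨δ, hδ⟩ := Nat.exists_eq_add_of_le hle
    refine ⟨α + d * (α + c), hX d, ?_⟩
    have h2 := (mv_iter hM δ).2 _ (hY n)
    have e : α + (n + 1) * (β + c) + δ * d = α + d * (α + c) := by
      rw [hn', hδ]; ring
    rw [e] at h2
    exact h2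
  · obtain ⟨δ, hδ⟩ := Nat.exists_eq_add_of_le hle
    refine ⟨α + (n + 1) * (β + c), ?_, hY n⟩
    have h2 := (mv_iter hM δ).1 _ (hX d)
    have e : α + d * (α + c) + δ * d = α + (n + 1) * (β + c) := by
      rw [hn', hδ]; ring
    rw [e] at h2
    exact h2

end main

lemma env_ae_support' (ζ : Offspring K) : ∀ᵐ ω ∂(env ζ), ∀ d, ζ d.2 (ω d) ≠ 0 := by
  rw [ae_all_iff]
  intro d
  have h1 : (env ζ).map (Function.eval d) = (ζ d.2).toMeasure := by
    unfold env
    exact Measure.infinitePi_map_eval (fun p : List ℕ × Fin K => (ζ p.2).toMeasure) d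
  rw [ae_iff]
  have h2 : {ω : Env K | ¬ ζ d.2 (ω d) ≠ 0} = Function.eval d ⁻¹' {x | ζ d.2 x = 0} := by
    ext ω; simp
  rw [h2, ← Measure.map_apply (measurable_pi_apply d) (MeasurableSet.of_discrete), h1,
    PMF.toMeasure_apply_eq_zero_iff _ MeasurableSet.of_discrete, Set.disjoint_left]
  intro x hx hx'
  exact (PMF.mem_support_iff _ _).mp hx hx'

lemma countable_finTree : (FinTree K).Countable := by
  classical
  let G : Finset (List ℕ × Fin K) → TypedTree K :=
    fun F u => if h : ∃ k, (u, k) ∈ F then some h.choose else none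
  refine (Set.countable_range G).mono ?_
  intro τ hτ
  have hfin : {p : List ℕ × Fin K | τ p.1 = some p.2}.Finite := by
    refine Set.Finite.subset (hτ.prod (Set.finite_univ (α := Fin K))) ?_
    rintro ⟨u, k⟩ h
    simp only [Set.mem_ofPred_eq] at h
    refine ⟨?_, Set.mem_univ _⟩
    change τ u ≠ none
    rw [h]; simp
  refine ⟨hfin.toFinset, ?_⟩
  funext u
  by_cases h : ∃ k, (u, k) ∈ hfin.toFinset
  · simp only [G]
    rw [dif_pos h]
    have := h.choose_spec
    rw [Set.Finite.mem_toFinset] at this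
    exact this.symm
  · simp only [G]
    rw [dif_neg h]
    cases hu : τ u with
    | none => rfl
    | some k => exact absurd ⟨k, by rw [Set.Finite.mem_toFinset]; exact hu⟩ h

lemma real_of_pos {ζ : Offspring K} {i : Fin K} {t : TypedTree K} (ht : t ∈ FinTree K)
    (hp : bgw ζ i {t} ≠ 0) : Real ζ i t := by
  classical
  rw [bgw_apply _ _ (MeasurableSet.singleton _)] at hp
  obtain ⟨ω0, h0, h1⟩ := Measure.exists_mem_of_measure_ne_zero_of_ae hp
    (ae_restrict_of_ae (env_ae_support' ζ))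
  have h0' : grow i ω0 = t := h0
  have hfin : {p : List ℕ × Fin K | t p.1 = some p.2}.Finite := by
    refine Set.Finite.subset (ht.prod (Set.finite_univ (α := Fin K))) ?_
    rintro ⟨u, k⟩ h
    simp only [Set.mem_ofPred_eq] at h
    refine ⟨?_, Set.mem_univ _⟩
    change t u ≠ none
    rw [h]; simp
  refine ⟨hfin.toFinset, ω0, fun d _ => h1 d, fun ω hω => ?_⟩
  funext u
  induction u using List.reverseRecOn with
  | nil => rw [← h0']; simp
  | append_singleton u r ih =>
    rw [grow_append, ih, ← h0', grow_append, h0']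
    cases hu : t u with
    | none => rfl
    | some k =>
      simp only [Option.bind_some]
      rw [hω (u, k) (by rw [Set.Finite.mem_toFinset]; exact hu)]

lemma total_finTree (Γ : Fin K → ℕ) {t : TypedTree K} (ht : t ∈ FinTree K) :
    ∃ v : ℕ, total Γ t = v := by
  have h : ∀ k, ∃ n : ℕ, count k t = n := by
    intro k
    have hfin : {u : List ℕ | t u = some k}.Finite := by
      refine Set.Finite.subset ht ?_
      intro u hu
      change t u ≠ none
      rw [show t u = some k from hu]; simp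
    exact ⟨_, hfin.encard_eq_coe_toFinset_card⟩
  choose n hn using h
  refine ⟨∑ k, Γ k * n k, ?_⟩
  unfold total
  simp_rw [hn]
  push_cast
  rfl

lemma exists_val {ζ : Offspring K} (Γ : Fin K → ℕ) {i : Fin K} (h : bgw ζ i (FinTree K) ≠ 0) :
    ∃ v, Val ζ Γ i v := by
  have : ∃ t ∈ FinTree K, bgw ζ i {t} ≠ 0 := by
    by_contra hcon
    push Not at hcon
    apply h
    rw [← Set.biUnion_of_singleton (FinTree K)]
    rw [measure_biUnion_null_iff countable_finTree]
    exact hcon
  obtain ⟨t, ht, hp⟩ := this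
  obtain ⟨v, hv⟩ := total_finTree Γ ht
  exact ⟨v, t, real_of_pos ht hp, hv⟩

/-- the positive theorem -/
lemma positive {ζ ζ' : Offspring K} {Γ : Fin K → ℕ}
    (hfinite : ∀ i, bgw ζ i (FinTree K) ≠ 0)
    (hirr : ∀ j k, Relation.TransGen (Child ζ) j k)
    (hbr : (∃ b y, ζ b y ≠ 0 ∧ 2 ≤ y.length) ∨ (∀ i, ζ i [] ≠ 0))
    (hc : CondEq Γ ζ ζ') : SameSupport ζ ζ' := by
  have hfin : ∀ j, ∃ v, Val ζ Γ j v := fun j => exists_val Γ (hfinite j)
  have hsub := supp_sub hc hfin
  intro i x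
  constructor
  · intro hx
    by_contra hx'
    by_cases hΓ : ∀ k, Γ k = 0
    · have htot : ∀ t : TypedTree K, total Γ t = 0 := by
        intro t
        unfold total
        apply Finset.sum_eq_zero
        intro k _
        rw [hΓ k]; simp
      have h1 : Val ζ Γ i 0 := by
        obtain ⟨v, t, ht, hv⟩ := hfin i
        exact ⟨t, ht, by rw [htot]; rfl⟩
      have h2 : ValU ζ' Γ i x i 0 := by
        choose f hf using hfin
        have hv : ∀ (j : ℕ) (h : j < x.length), ∃ t, Real ζ' x[j] t := by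
          intro j h
          obtain ⟨t, ht, _⟩ := hf x[j]
          exact ⟨t, real_mono hsub ht⟩
        choose! t ht using hv
        exact ⟨graft i x t, real_graft hx' ht, by rw [htot]; rfl,
          uses_graft_root (fun j h => real_root (ht j h))⟩
      exact contra hc hx h1 h2
    · push Not at hΓ
      obtain ⟨k, hk⟩ := hΓ
      obtain ⟨c1, _, m1⟩ := mv_chain (ζ' := ζ') (Γ := Γ) (i₀ := i) (x := x) hsub hfin (hirr i k)
      obtain ⟨c2, hc2, m2⟩ := mv_chain (ζ' := ζ') (Γ := Γ) (i₀ := i) (x := x) hsub hfin (hirr k i)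
      have hM := mv_trans m1 m2
      have hd : 0 < c2 + c1 := by omega
      rcases Nat.eq_zero_or_pos x.length with hl | hl
      · have hxn : x = [] := List.length_eq_zero_iff.mp hl
        subst hxn
        rcases hbr with ⟨b, y, hy, hlen⟩ | hall
        · obtain ⟨v, h1, h2⟩ := case_nil hsub hfin hirr hx' hy hlen hd hM
          exact contra hc hx h1 h2
        · exact hall i hx
      · obtain ⟨v, h1, h2⟩ := case_cons hsub hfin hirr hx' hl hd hM
        exact contra hc hx h1 h2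
  · intro hx
    by_contra hx'
    exact hsub i x hx' hx

end Pool.Agent.Lib.MP_e34f63_pr
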