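import Mathlib
import Pool.Agent.Lib.MP_e34f63_pr.Positive

set_option autoImplicit false

open MeasureTheory

namespace Pool.Agent.Lib.MP_e34f63_pr

/-- two-point law -/
noncomputable def two (a b : List (Fin 2)) : PMF (List (Fin 2)) :=
  (PMF.uniformOfFintype Bool).map (fun c => if c then a else b)

lemma two_map (a b : List (Fin 2)) (f : List (Fin 2) → List (Fin 2)) :
    (two a b).map f = two (f a) (f b) := by
  unfold two
  rw [PMF.map_comp]
  congr 1
  funext c
  cases c <;> rfl

lemma two_comm (a b : List (Fin 2)) : two a b = two b a := by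
  ext x
  unfold two
  rw [PMF.map_apply, PMF.map_apply]
  simp only [tsum_bool, PMF.uniformOfFintype_apply]
  simp only [Bool.false_eq_true, if_false, if_true]
  rw [add_comm]

lemma two_ne_zero_iff (a b x : List (Fin 2)) : two a b x ≠ 0 ↔ x = a ∨ x = b := by
  rw [← PMF.mem_support_iff, two, PMF.mem_support_map_iff]
  simp only [PMF.support_uniformOfFintype]
  constructor
  · rintro ⟨c, _, h⟩
    cases c
    · right; simpa using h.symm
    · left; simpa using h.symm
  · rintro (rfl | rfl)
    · exact ⟨true, trivial, by simp⟩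
    · exact ⟨false, trivial, by simp⟩

/-- subcritical binary law -/
noncomputable def bin : PMF (List (Fin 2)) :=
  (PMF.uniformOfFintype (Fin 4)).map (fun c => if c = 0 then [1, 1] else [])

lemma bin_ne_zero {x : List (Fin 2)} (h : bin x ≠ 0) : x = [] ∨ x = [1, 1] := by
  rw [← PMF.mem_support_iff, bin, PMF.mem_support_map_iff] at h
  obtain ⟨c, _, hc⟩ := h
  by_cases h0 : c = 0
  · right; rw [← hc, if_pos h0]
  · left; rw [← hc, if_neg h0]

lemma bin_nil_ne : bin [] ≠ 0 := by
  rw [← PMF.mem_support_iff, bin, PMF.mem_support_map_iff]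
  exact ⟨1, by simp, by simp⟩

lemma bin_two_ne : bin [1, 1] ≠ 0 := by
  rw [← PMF.mem_support_iff, bin, PMF.mem_support_map_iff]
  exact ⟨0, by simp, by simp⟩

lemma bin_two : bin [1, 1] = 4⁻¹ := by
  rw [bin, PMF.map_apply, tsum_fintype, Fin.sum_univ_four]
  simp

/-- first family -/
noncomputable def zeta : Offspring 2 := ![PMF.pure [1], bin]

/-- second family -/
noncomputable def zeta' : Offspring 2 := ![two [1] [1, 1], bin]

/-- all ones -/
abbrev G1 : Fin 2 → ℕ := fun _ => 1

/-- supported environments -/
def Supp (ω : Env 2) : Prop :=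
  (∀ u, ω (u, 1) = [] ∨ ω (u, 1) = [1, 1]) ∧ ∀ u, ω (u, 0) = [1] ∨ ω (u, 0) = [1, 1]

lemma ae_supp : ∀ᵐ ω ∂(env zeta'), Supp ω := by
  filter_upwards [env_ae_support' zeta'] with ω hω
  refine ⟨fun u => ?_, fun u => ?_⟩
  · exact bin_ne_zero (hω (u, 1))
  · exact (two_ne_zero_iff _ _ _).mp (hω (u, 0))

lemma supp_shift {ω : Env 2} (h : Supp ω) (j : ℕ) : Supp (shift j ω) :=
  ⟨fun u => h.1 (j :: u), fun u => h.2 (j :: u)⟩

lemma total_grow (i : Fin 2) (ω : Env 2) : total G1 (grow i ω) =
    1 + ∑ j ∈ Finset.range (ω ([], i)).length,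
      total G1 (subt (ω ([], i))[j]? (shift j ω)) := by
  conv_lhs => rw [grow_eq_graft, total_graft]
  simp

lemma total_leaf {i : Fin 2} {ω : Env 2} (h : ω ([], i) = []) : total G1 (grow i ω) = 1 := by
  rw [total_grow, h]; simp

lemma total_one {i : Fin 2} {ω : Env 2} (h : ω ([], i) = [1]) :
    total G1 (grow i ω) = 1 + total G1 (grow 1 (shift 0 ω)) := by
  rw [total_grow, h]; simp

lemma total_two {i : Fin 2} {ω : Env 2} (h : ω ([], i) = [1, 1]) :
    total G1 (grow i ω) = 1 + (total G1 (grow 1 (shift 0 ω)) + total G1 (grow 1 (shift 1 ω))) := by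
  rw [total_grow, h]
  simp [Finset.sum_range_succ]

lemma odd_type_one : ∀ (n : ℕ) (ω : Env 2), Supp ω → total G1 (grow 1 ω) = n → Odd n := by
  intro n
  induction n using Nat.strong_induction_on with
  | _ n ih =>
    intro ω hω hn
    rcases hω.1 [] with h | h
    · rw [total_leaf h] at hn
      have : n = 1 := by exact_mod_cast hn.symm
      rw [this]; exact odd_one
    · rw [total_two h] at hn
      have ha : total G1 (grow 1 (shift 0 ω)) ≠ ⊤ := by
        intro h'; rw [h'] at hn; simp at hn
      have hb : total G1 (grow 1 (shift 1 ω)) ≠ ⊤ := by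
        intro h'; rw [h'] at hn; simp at hn
      obtain ⟨a, ha⟩ := ENat.ne_top_iff_exists.mp ha
      obtain ⟨b, hb⟩ := ENat.ne_top_iff_exists.mp hb
      rw [← ha, ← hb] at hn
      have hn' : 1 + (a + b) = n := by exact_mod_cast hn
      have oa := ih a (by omega) _ (supp_shift hω 0) ha.symm
      have ob := ih b (by omega) _ (supp_shift hω 1) hb.symm
      rw [← hn']
      exact odd_one.add_even (oa.add_odd ob)

lemma even_zero_one {n : ℕ} {ω : Env 2} (hω : Supp ω) (h : ω ([], 0) = [1])
    (hn : total G1 (grow 0 ω) = n) : Even n := by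
  rw [total_one h] at hn
  have ha : total G1 (grow 1 (shift 0 ω)) ≠ ⊤ := by
    intro h'; rw [h'] at hn; simp at hn
  obtain ⟨a, ha⟩ := ENat.ne_top_iff_exists.mp ha
  rw [← ha] at hn
  have hn' : 1 + a = n := by exact_mod_cast hn
  have oa := odd_type_one a _ (supp_shift hω 0) ha.symm
  rw [← hn']
  exact odd_one.add_odd oa

lemma odd_zero_two {n : ℕ} {ω : Env 2} (hω : Supp ω) (h : ω ([], 0) = [1, 1])
    (hn : total G1 (grow 0 ω) = n) : Odd n := by
  rw [total_two h] at hn
  have ha : total G1 (grow 1 (shift 0 ω)) ≠ ⊤ := by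
    intro h'; rw [h'] at hn; simp at hn
  have hb : total G1 (grow 1 (shift 1 ω)) ≠ ⊤ := by
    intro h'; rw [h'] at hn; simp at hn
  obtain ⟨a, ha⟩ := ENat.ne_top_iff_exists.mp ha
  obtain ⟨b, hb⟩ := ENat.ne_top_iff_exists.mp hb
  rw [← ha, ← hb] at hn
  have hn' : 1 + (a + b) = n := by exact_mod_cast hn
  have oa := odd_type_one a _ (supp_shift hω 0) ha.symm
  have ob := odd_type_one b _ (supp_shift hω 1) hb.symm
  rw [← hn']
  exact odd_one.add_even (oa.add_odd ob)

/-- replace all words of type 0 by `[1]` -/
def Phi (ω : Env 2) : Env 2 := fun d => if d.2 = 0 then [1] else ω d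

lemma supp_Phi {ω : Env 2} (h : Supp ω) : Supp (Phi ω) := by
  refine ⟨fun u => ?_, fun u => ?_⟩
  · simpa [Phi] using h.1 u
  · left; simp [Phi]

lemma grow_one_congr : ∀ (u : List ℕ) (ω ω' : Env 2), Supp ω → (∀ u, ω (u, 1) = ω' (u, 1)) →
    grow 1 ω u = grow 1 ω' u := by
  intro u
  induction u with
  | nil => intros; simp
  | cons j u ih =>
    intro ω ω' hω h
    rw [grow_cons, grow_cons, ← h []]
    cases hj : (ω ([], 1))[j]? with
    | none => rfl
    | some k =>
      have hk : k ∈ ω ([], 1) := List.mem_of_getElem? hj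
      have hk1 : k = 1 := by
        rcases hω.1 [] with h' | h' <;> rw [h'] at hk <;> simp at hk
        exact hk
      subst hk1
      simp only [Option.bind_some]
      exact ih _ _ (supp_shift hω j) (fun u => h (j :: u))

lemma grow_one_Phi {ω : Env 2} (hω : Supp ω) : grow 1 (Phi ω) = grow 1 ω := by
  funext u
  exact (grow_one_congr u ω (Phi ω) hω (fun u => by simp [Phi])).symm

lemma grow_zero_Phi {ω : Env 2} (hω : Supp ω) (h : ω ([], 0) = [1]) :
    grow 0 (Phi ω) = grow 0 ω := by
  funext u
  cases u with
  | nil => simp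
  | cons j u =>
    have h' : Phi ω ([], 0) = [1] := by simp [Phi]
    rw [grow_cons, grow_cons, h, h']
    cases hj : ([1] : List (Fin 2))[j]? with
    | none => rfl
    | some k =>
      have hk : k ∈ ([1] : List (Fin 2)) := List.mem_of_getElem? hj
      have hk1 : k = 1 := by simpa using hk
      subst hk1
      simp only [Option.bind_some]
      exact (grow_one_congr u _ _ (supp_shift hω j) (fun u => by simp [Phi, shift])).symm

lemma map_Phi : (env zeta').map Phi = env zeta := by
  have h1 : Phi = fun (ω : Env 2) (d : List ℕ × Fin 2) =>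
      (if d.2 = 0 then (fun _ => [1]) else id : List (Fin 2) → List (Fin 2)) (ω d) := by
    funext ω d
    unfold Phi
    split_ifs <;> rfl
  unfold env
  rw [h1, Measure.infinitePi_map_pi]
  · congr 1
    funext d
    obtain ⟨u, k⟩ := d
    fin_cases k
    · simp only [Fin.zero_eta, if_true]
      rw [PMF.toMeasure_map _ _ Measurable.of_discrete]
      have : zeta' 0 = two [1] [1, 1] := rfl
      rw [this, two_map]
      congr 1
      ext x
      have h2 : zeta 0 = PMF.pure [1] := rfl
      rw [h2, two, show (fun c : Bool => if c = true then ([1] : List (Fin 2)) else [1]) =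
        Function.const Bool [1] by funext c; cases c <;> rfl, PMF.map_const]
    · have h2 : ¬ ((⟨1, by decide⟩ : Fin 2) = 0) := by decide
      simp only [h2, if_false, Measure.map_id]
      rfl
  · intro d
    exact Measurable.of_discrete

/-- exchange the two root words -/
def sig (ω : Env 2) : Env 2 := fun d =>
  if d = ([], 0) then Equiv.swap [1] [1, 1] (ω d) else ω d

lemma map_sig : (env zeta').map sig = env zeta' := by
  have h1 : sig = fun (ω : Env 2) (d : List ℕ × Fin 2) =>
      (if d = ([], 0) then Equiv.swap [1] [1, 1] else id : List (Fin 2) → List (Fin 2)) (ω d) := by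
    funext ω d
    unfold sig
    split_ifs <;> rfl
  unfold env
  rw [h1, Measure.infinitePi_map_pi]
  · congr 1
    funext d
    by_cases hd : d = ([], 0)
    · subst hd
      simp only [if_true]
      rw [PMF.toMeasure_map _ _ Measurable.of_discrete]
      have : zeta' 0 = two [1] [1, 1] := rfl
      rw [this, two_map, Equiv.swap_apply_left, Equiv.swap_apply_right, two_comm]
    · simp only [if_neg hd, Measure.map_id]
  · intro d
    exact Measurable.of_discrete

lemma measurable_Phi : Measurable Phi := by
  apply measurable_pi_lambda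
  intro d
  unfold Phi
  split_ifs
  · exact measurable_const
  · exact measurable_pi_apply d

lemma measurable_sig : Measurable sig := by
  apply measurable_pi_lambda
  intro d
  unfold sig
  split_ifs
  · have h1 : Measurable (fun x : List (Fin 2) => Equiv.swap [1] [1, 1] x) :=
      Measurable.of_discrete
    exact h1.comp (measurable_pi_apply d)
  · exact measurable_pi_apply d

lemma bgw_zeta_apply (i : Fin 2) {B : Set (TypedTree 2)} (hB : MeasurableSet B) :
    bgw zeta i B = env zeta' {ω | grow i (Phi ω) ∈ B} := by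
  rw [bgw_apply _ _ hB, ← map_Phi, Measure.map_apply measurable_Phi (measurable_grow i hB)]
  rfl

lemma bgw_one_eq : bgw zeta 1 = bgw zeta' 1 := by
  ext B hB
  rw [bgw_zeta_apply 1 hB, bgw_apply _ _ hB]
  apply measure_congr
  filter_upwards [ae_supp] with ω hω
  have := grow_one_Phi hω
  change (grow 1 (Phi ω) ∈ B) = (grow 1 ω ∈ B)
  rw [this]

lemma half (g : ℕ) (hg : Even g) {B : Set (TypedTree 2)} (hB : MeasurableSet B)
    (hBg : B ⊆ event G1 g) : bgw zeta 0 B = 2 * bgw zeta' 0 B := by
  rw [bgw_zeta_apply 0 hB, bgw_apply _ _ hB]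
  set C : Set (Env 2) := {ω | grow 0 (Phi ω) ∈ B} with hC
  have hCm : MeasurableSet C := measurable_Phi (measurable_grow 0 hB)
  let E1 : Set (Env 2) := {ω | ω ([], 0) = [1]}
  let E2 : Set (Env 2) := {ω | ω ([], 0) = [1, 1]}
  have hm : ∀ w : List (Fin 2), MeasurableSet {ω : Env 2 | ω ([], 0) = w} := by
    intro w
    have h1 : Measurable (fun ω : Env 2 => ω ([], 0)) := measurable_pi_apply _
    exact h1 (MeasurableSet.singleton w)
  have hE1 : MeasurableSet E1 := hm [1]
  have hE2 : MeasurableSet E2 := hm [1, 1]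
  have h1 : env zeta' (grow 0 ⁻¹' B) = env zeta' (E1 ∩ C) := by
    apply measure_congr
    filter_upwards [ae_supp] with ω hω
    change (grow 0 ω ∈ B) = (ω ∈ E1 ∩ C)
    apply propext
    constructor
    · intro h
      rcases hω.2 [] with h' | h'
      · refine ⟨h', ?_⟩
        change grow 0 (Phi ω) ∈ B
        rw [grow_zero_Phi hω h']; exact h
      · exfalso
        have := odd_zero_two hω h' (hBg h)
        exact (Nat.not_even_iff_odd.mpr this) hg
    · rintro ⟨h', h⟩
      change grow 0 (Phi ω) ∈ B at h
      rw [grow_zero_Phi hω h'] at h; exact h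
  have h2 : env zeta' (E1 ∩ C) = env zeta' (E2 ∩ C) := by
    conv_lhs => rw [← map_sig]
    rw [Measure.map_apply measurable_sig (hE1.inter hCm)]
    congr 1
    ext ω
    have e1 : Phi (sig ω) = Phi ω := by
      funext d
      unfold Phi sig
      by_cases hd : d.2 = 0
      · simp [hd]
      · have : d ≠ ([], 0) := by rintro rfl; exact hd rfl
        simp [hd, this]
    have e2 : sig ω ([], 0) = [1] ↔ ω ([], 0) = [1, 1] := by
      unfold sig
      simp only [if_true]
      rw [Equiv.swap_apply_eq_iff, Equiv.swap_apply_left]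
    simp only [Set.mem_preimage, Set.mem_inter_iff, E1, E2, C, Set.mem_ofPred_eq, e1, e2]
  have h3 : env zeta' C = env zeta' (E1 ∩ C) + env zeta' (E2 ∩ C) := by
    rw [← measure_union _ (hE2.inter hCm)]
    · apply measure_congr
      filter_upwards [ae_supp] with ω hω
      change (ω ∈ C) = (ω ∈ (E1 ∩ C) ∪ (E2 ∩ C))
      apply propext
      constructor
      · intro h
        rcases hω.2 [] with h' | h'
        · exact Or.inl ⟨h', h⟩
        · exact Or.inr ⟨h', h⟩
      · rintro (h | h)
        · exact h.2
        · exact h.2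
    · rw [Set.disjoint_left]
      rintro ω ⟨ha, _⟩ ⟨hb, _⟩
      simp only [E1, E2, Set.mem_ofPred_eq] at ha hb
      rw [ha] at hb
      exact absurd hb (by decide)
  rw [h3, ← h2, h1, two_mul]

lemma odd_null (g : ℕ) (hg : ¬ Even g) : bgw zeta 0 (event G1 g) = 0 := by
  rw [bgw_zeta_apply 0 (measurableSet_event _ _)]
  have : {ω : Env 2 | grow 0 (Phi ω) ∈ event G1 g} ⊆ {ω | ¬ Supp ω} := by
    intro ω h hω
    apply hg
    exact even_zero_one (supp_Phi hω) (by simp [Phi]) h
  exact measure_mono_null this ae_supp

lemma condEq : CondEq G1 zeta zeta' := by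
  intro i g h
  fin_cases i
  · simp only [Fin.zero_eta] at h ⊢
    by_cases hg : Even g
    · have hS := measurableSet_event G1 g
      ext A hA
      rw [ProbabilityTheory.cond_apply hS, ProbabilityTheory.cond_apply hS,
        half g hg hS subset_rfl, half g hg (hS.inter hA) Set.inter_subset_left,
        ENNReal.mul_inv (Or.inl two_ne_zero) (Or.inl ENNReal.ofNat_ne_top)]
      rw [mul_mul_mul_comm, ENNReal.inv_mul_cancel two_ne_zero ENNReal.ofNat_ne_top, one_mul]
    · exact absurd (odd_null g hg) h
  · simp only [Fin.mk_one]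
    rw [bgw_one_eq]

lemma not_sameSupport : ¬ SameSupport zeta zeta' := by
  intro h
  have h1 : zeta 0 [1, 1] = 0 := by
    change (PMF.pure [1] : PMF (List (Fin 2))) [1, 1] = 0
    rw [PMF.pure_apply, if_neg (by decide)]
  have h2 : zeta' 0 [1, 1] ≠ 0 := (two_ne_zero_iff [1] [1, 1] [1, 1]).mpr (Or.inr rfl)
  exact h2 ((h 0 [1, 1]).mp h1)

/-- a vertex at `u` in a supported environment: all proper nonempty prefixes branch -/
lemma present_prefix {ω : Env 2} (hω : Supp ω) (i : Fin 2) :
    ∀ (u : List ℕ), grow i ω u ≠ none → (∀ j ∈ u, j < 2) ∧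
      (u ≠ [] → grow i ω u = some 1) ∧
      ∀ m, 1 ≤ m → m < u.length → ω (u.take m, 1) = [1, 1] := by
  intro u
  induction u using List.reverseRecOn with
  | nil => intro _; simp
  | append_singleton u r ih =>
    intro h
    rw [grow_append] at h
    have hu : grow i ω u ≠ none := by
      intro h'; rw [h'] at h; exact h rfl
    obtain ⟨h1, h2, h3⟩ := ih hu
    obtain ⟨k, hk⟩ := Option.ne_none_iff_exists'.mp hu
    rw [hk, Option.bind_some] at h
    have hw : ω (u, k) = [] ∨ ω (u, k) = [1] ∨ ω (u, k) = [1, 1] := by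
      have : k = 0 ∨ k = 1 := by omega
      rcases this with rfl | rfl
      · exact Or.inr (hω.2 u)
      · rcases hω.1 u with h' | h'
        · exact Or.inl h'
        · exact Or.inr (Or.inr h')
    have hlen : r < (ω (u, k)).length := by
      by_contra hcon
      exact h (List.getElem?_eq_none (not_lt.mp hcon))
    have hr : r < 2 := by
      rcases hw with h' | h' | h' <;> rw [h'] at hlen <;> simp at hlen <;> omega
    have hmem : (ω (u, k))[r]? = some 1 := by
      rw [List.getElem?_eq_getElem hlen]
      have hall : ∀ z ∈ ω (u, k), z = 1 := by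
        rcases hw with h' | h' | h' <;> rw [h'] <;> simp
      rw [hall _ (List.getElem_mem hlen)]
    refine ⟨?_, ?_, ?_⟩
    · intro j hj
      rw [List.mem_append, List.mem_singleton] at hj
      rcases hj with hj | rfl
      · exact h1 j hj
      · exact hr
    · intro _
      rw [grow_append, hk, Option.bind_some, hmem]
    · intro m hm hm'
      rw [List.length_append, List.length_singleton] at hm'
      rcases Nat.lt_succ_iff_lt_or_eq.mp hm' with hm' | rfl
      · rw [List.take_append_of_le_length hm'.le]
        exact h3 m hm hm'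
      · rw [List.take_left]
        have hune : u ≠ [] := by
          rintro rfl; simp at hm
        have hk1 := h2 hune
        rw [hk] at hk1
        have hk1' : k = 1 := Option.some_injective _ hk1
        subst hk1'
        rcases hω.1 u with h' | h'
        · rw [h'] at hlen; simp at hlen
        · exact h'

/-- addresses with entries in `{0, 1}` -/
def addr (n : ℕ) (f : Fin n → Fin 2) : List ℕ := List.ofFn (fun i => (f i : ℕ))

lemma mem_addr {u : List ℕ} (h : ∀ j ∈ u, j < 2) : ∃ f : Fin u.length → Fin 2, addr u.length f = u := by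
  refine ⟨fun i => ⟨u[i], h _ (List.getElem_mem _)⟩, ?_⟩
  unfold addr
  exact List.ofFn_getElem (xs := u)

lemma present_bound (n : ℕ) (f : Fin (n + 1) → Fin 2) :
    env zeta' {ω | ∀ m, 1 ≤ m → m < n + 1 → ω ((addr (n + 1) f).take m, 1) = [1, 1]} ≤
      (4⁻¹ : ENNReal) ^ n := by
  classical
  let D : Finset (List ℕ × Fin 2) :=
    (Finset.univ : Finset (Fin n)).image (fun m : Fin n => ((addr (n + 1) f).take (m.val + 1), 1))
  have hinj : Function.Injective (fun m : Fin n => ((addr (n + 1) f).take (m.val + 1), (1 : Fin 2))) := by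
    intro a b hab
    have h1 : (addr (n + 1) f).take (a.val + 1) = (addr (n + 1) f).take (b.val + 1) :=
      congrArg Prod.fst hab
    have h2 := congrArg List.length h1
    have h3 : (addr (n + 1) f).length = n + 1 := by simp [addr]
    rw [List.length_take, List.length_take, h3] at h2
    have := a.2
    have := b.2
    ext; omega
  have h1 : {ω : Env 2 | ∀ m, 1 ≤ m → m < n + 1 → ω ((addr (n + 1) f).take m, 1) = [1, 1]} ⊆
      {ω | ∀ d ∈ D, ω d = [1, 1]} := by
    intro ω hω d hd
    obtain ⟨m, _, rfl⟩ := Finset.mem_image.mp hd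
    exact hω _ (by omega) (by omega)
  refine le_trans (measure_mono h1) ?_
  rw [env_cyl zeta' D (fun _ => [1, 1])]
  have h2 : ∀ d ∈ D, zeta' d.2 [1, 1] = 4⁻¹ := by
    intro d hd
    obtain ⟨m, _, rfl⟩ := Finset.mem_image.mp hd
    exact bin_two
  rw [Finset.prod_congr rfl h2, Finset.prod_const]
  have h3 : D.card = n := by
    rw [Finset.card_image_of_injective _ hinj]; simp
  rw [h3]

lemma measurableSet_finTree {K : ℕ} : MeasurableSet (FinTree K) :=
  countable_finTree.measurableSet

/-- almost sure finiteness -/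
lemma finite_zeta' (i : Fin 2) : bgw zeta' i (FinTree 2)ᶜ = 0 := by
  classical
  rw [bgw_apply _ _ measurableSet_finTree.compl]
  have hbound : ∀ n : ℕ, env zeta' (grow i ⁻¹' (FinTree 2)ᶜ) ≤
      (2 : ENNReal) * (2⁻¹ : ENNReal) ^ n := by
    intro n
    have hcov : env zeta' (grow i ⁻¹' (FinTree 2)ᶜ) ≤
        env zeta' (⋃ f : Fin (n + 1) → Fin 2,
          {ω | ∀ m, 1 ≤ m → m < n + 1 → ω ((addr (n + 1) f).take m, 1) = [1, 1]}) := by
      apply measure_mono_ae
      filter_upwards [ae_supp] with ω hω h
      have hnot : ¬ (grow i ω ∈ FinTree 2) := h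
      have hex : ∃ u : List ℕ, u.length = n + 1 ∧ grow i ω u ≠ none := by
        by_contra hcon
        push Not at hcon
        apply hnot
        have hshort : ∀ u : List ℕ, grow i ω u ≠ none → u.length < n + 1 := by
          intro u hu
          by_contra hlen
          push Not at hlen
          have htake : ∀ v w : List ℕ, grow i ω (v ++ w) ≠ none → grow i ω v ≠ none := by
            intro v w
            induction w using List.reverseRecOn with
            | nil => intro h; simpa using h
            | append_singleton w r ih =>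
              intro h
              apply ih
              intro h'
              apply h
              rw [← List.append_assoc, grow_append, h']
              rfl
          have h2 : grow i ω (u.take (n + 1)) ≠ none :=
            htake _ (u.drop (n + 1)) (by rw [List.take_append_drop]; exact hu)
          exact h2 (hcon _ (by rw [List.length_take]; omega))
        have hfin : (⋃ k : Fin (n + 1), Set.range (addr k.val)).Finite :=
          Set.finite_iUnion (fun k => Set.finite_range _)
        refine hfin.subset ?_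
        intro u hu
        obtain ⟨f, hf⟩ := mem_addr (present_prefix hω i u hu).1
        rw [Set.mem_iUnion]
        exact ⟨⟨u.length, hshort u hu⟩, f, hf⟩
      obtain ⟨u, hu, hp⟩ := hex
      obtain ⟨h1, _, h3⟩ := present_prefix hω i u hp
      obtain ⟨f, hf⟩ := mem_addr h1
      have hmem : ∃ f : Fin (n + 1) → Fin 2, addr (n + 1) f = u := by
        rw [← hu]; exact ⟨f, hf⟩
      obtain ⟨f, hf⟩ := hmem
      change ω ∈ ⋃ f : Fin (n + 1) → Fin 2,
          {ω : Env 2 | ∀ m, 1 ≤ m → m < n + 1 → ω ((addr (n + 1) f).take m, 1) = [1, 1]}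
      rw [Set.mem_iUnion]
      refine ⟨f, ?_⟩
      intro m hm hm'
      rw [hf]
      exact h3 m hm (by omega)
    refine le_trans hcov ?_
    refine le_trans (measure_iUnion_fintype_le _ _) ?_
    refine le_trans (Finset.sum_le_sum (fun f _ => present_bound n f)) ?_
    rw [Finset.sum_const, Finset.card_univ]
    simp only [Fintype.card_fun, Fintype.card_fin, nsmul_eq_mul]
    push_cast
    apply le_of_eq
    have e4 : (4⁻¹ : ENNReal) = 2⁻¹ * 2⁻¹ := by
      rw [← ENNReal.mul_inv (Or.inl two_ne_zero) (Or.inl ENNReal.ofNat_ne_top)]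
      norm_num
    rw [e4, pow_succ, mul_pow]
    have e2 : (2 : ENNReal) ^ n * (2⁻¹ : ENNReal) ^ n = 1 := by
      rw [← mul_pow, ENNReal.mul_inv_cancel two_ne_zero ENNReal.ofNat_ne_top, one_pow]
    calc (2 : ENNReal) ^ n * 2 * ((2⁻¹ : ENNReal) ^ n * (2⁻¹ : ENNReal) ^ n)
        = ((2 : ENNReal) ^ n * (2⁻¹ : ENNReal) ^ n) * (2 * (2⁻¹ : ENNReal) ^ n) := by ring
      _ = _ := by rw [e2, one_mul]
  have hlim : Filter.Tendsto (fun n : ℕ => (2 : ENNReal) * (2⁻¹ : ENNReal) ^ n) Filter.atTop
      (nhds 0) := by
    have h1 := ENNReal.tendsto_pow_atTop_nhds_zero_of_lt_one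
      (r := (2⁻¹ : ENNReal)) (by simp)
    have h2 := ENNReal.Tendsto.const_mul (a := 2) h1 (Or.inr ENNReal.ofNat_ne_top)
    rwa [mul_zero] at h2
  exact le_antisymm (ge_of_tendsto' hlim hbound) bot_le

lemma finite_zeta (i : Fin 2) : bgw zeta i (FinTree 2)ᶜ = 0 := by
  have h1 : i = 0 ∨ i = 1 := by omega
  rcases h1 with rfl | rfl
  · rw [bgw_zeta_apply 0 measurableSet_finTree.compl]
    have h0 := finite_zeta' 0
    rw [bgw_apply _ _ measurableSet_finTree.compl] at h0
    set C : Set (Env 2) := {ω | grow 0 (Phi ω) ∈ (FinTree 2)ᶜ} with hC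
    have hCm : MeasurableSet C := measurable_Phi (measurable_grow 0 measurableSet_finTree.compl)
    let E1 : Set (Env 2) := {ω | ω ([], 0) = [1]}
    let E2 : Set (Env 2) := {ω | ω ([], 0) = [1, 1]}
    have hm : ∀ w : List (Fin 2), MeasurableSet {ω : Env 2 | ω ([], 0) = w} := by
      intro w
      have h1 : Measurable (fun ω : Env 2 => ω ([], 0)) := measurable_pi_apply _
      exact h1 (MeasurableSet.singleton w)
    have k1 : env zeta' (E1 ∩ C) = 0 := by
      refine measure_mono_null_ae ?_ h0
      filter_upwards [ae_supp] with ω hω h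
      have ha : ω ([], 0) = [1] := h.1
      have hb : grow 0 (Phi ω) ∈ (FinTree 2)ᶜ := h.2
      rw [grow_zero_Phi hω ha] at hb
      exact hb
    have k2 : env zeta' (E2 ∩ C) = 0 := by
      rw [← k1]
      conv_rhs => rw [← map_sig]
      rw [Measure.map_apply measurable_sig ((hm [1]).inter hCm)]
      congr 1
      ext ω
      have e1 : Phi (sig ω) = Phi ω := by
        funext d
        unfold Phi sig
        by_cases hd : d.2 = 0
        · simp [hd]
        · have : d ≠ ([], 0) := by rintro rfl; exact hd rfl
          simp [hd, this]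
      have e2 : sig ω ([], 0) = [1] ↔ ω ([], 0) = [1, 1] := by
        unfold sig
        simp only [if_true]
        rw [Equiv.swap_apply_eq_iff, Equiv.swap_apply_left]
      simp only [Set.mem_preimage, Set.mem_inter_iff, E1, E2, C, Set.mem_ofPred_eq, e1, e2]
    have k3 : C ≤ᵐ[env zeta'] ((E1 ∩ C) ∪ (E2 ∩ C) : Set (Env 2)) := by
      filter_upwards [ae_supp] with ω hω h
      rcases hω.2 [] with h' | h'
      · exact Or.inl ⟨h', h⟩
      · exact Or.inr ⟨h', h⟩
    exact measure_mono_null_ae k3 (measure_union_null k1 k2)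
  · rw [bgw_one_eq]; exact finite_zeta' 1

lemma val_one (n : ℕ) : Val zeta G1 1 (2 * n + 1) := by
  induction n with
  | zero =>
    have := val_graft (ζ := zeta) (Γ := G1) (i := 1) (y := []) (v := fun _ => 0) bin_nil_ne
      (by intro j h; simp at h)
    simpa using this
  | succ n ih =>
    have := val_graft (ζ := zeta) (Γ := G1) (i := 1) (y := [1, 1])
      (v := fun j => if j = 0 then 1 else 2 * n + 1) bin_two_ne (by
        intro j h
        have hall : ∀ z ∈ ([1, 1] : List (Fin 2)), z = 1 := by simp
        have hj : ([1, 1] : List (Fin 2))[j] = 1 := hall _ (List.getElem_mem h)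
        rw [hj]
        by_cases h0 : j = 0
        · rw [if_pos h0]
          have := val_graft (ζ := zeta) (Γ := G1) (i := 1) (y := []) (v := fun _ => 0) bin_nil_ne
            (by intro j h; simp at h)
          simpa using this
        · rw [if_neg h0]; exact ih)
    simp only [List.length_cons, List.length_nil, Finset.sum_range_succ, Finset.sum_range_zero]
      at this
    simp only [if_true] at this
    have e : G1 1 + (0 + 1 + if (0 + 1 : ℕ) = 0 then 1 else 2 * n + 1) = 2 * (n + 1) + 1 := by
      simp [G1]; ring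
    rw [e] at this
    exact this

lemma val_zero (n : ℕ) : Val zeta G1 0 (2 * n + 2) := by
  have h0 : zeta 0 [1] ≠ 0 := by
    change (PMF.pure [1] : PMF (List (Fin 2))) [1] ≠ 0
    rw [PMF.pure_apply, if_pos rfl]
    exact one_ne_zero
  have := val_graft (ζ := zeta) (Γ := G1) (i := 0) (y := [1]) (v := fun _ => 2 * n + 1) h0 (by
        intro j h
        have hall : ∀ z ∈ ([1] : List (Fin 2)), z = 1 := by simp
        have hj : ([1] : List (Fin 2))[j] = 1 := hall _ (List.getElem_mem h)
        rw [hj]
        exact val_one n)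
  simp only [List.length_cons, List.length_nil, Finset.sum_range_succ, Finset.sum_range_zero]
      at this
  have e : G1 0 + (0 + (2 * n + 1)) = 2 * n + 2 := by simp [G1]; ring
  rw [e] at this
  exact this

lemma infinite_values (i : Fin 2) : {g : ℕ | bgw zeta i (event G1 g) ≠ 0}.Infinite := by
  have h1 : i = 0 ∨ i = 1 := by omega
  rcases h1 with rfl | rfl
  · refine Set.infinite_of_injective_forall_mem (f := fun n : ℕ => 2 * n + 2) ?_ ?_
    · intro a b h; simp only at h; omega
    · intro n; exact val_pos (val_zero n)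
  · refine Set.infinite_of_injective_forall_mem (f := fun n : ℕ => 2 * n + 1) ?_ ?_
    · intro a b h; simp only at h; omega
    · intro n; exact val_pos (val_one n)

end Pool.Agent.Lib.MP_e34f63_pr
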